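import Mathlib

/-!
# Disjoint pairs of edges in geometric graphs: the counting argument
-/

set_option autoImplicit false

namespace Pool.Agent.K3h94.DJ

open Finset

/-- Twice the signed area of the triangle `a b c`. -/
def ori (a b c : ℝ × ℝ) : ℝ := (b.1 - a.1) * (c.2 - a.2) - (b.2 - a.2) * (c.1 - a.1)

theorem ori_swap (a b c : ℝ × ℝ) : ori b a c = - ori a b c := by unfold ori; ring

theorem ori_swap' (a b c : ℝ × ℝ) : ori a c b = - ori a b c := by unfold ori; ring

theorem ori_rot (a b c : ℝ × ℝ) : ori b c a = ori a b c := by unfold ori; ring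

theorem ori_self (a b : ℝ × ℝ) : ori a b b = 0 := by unfold ori; ring

theorem ori_self' (a b : ℝ × ℝ) : ori a b a = 0 := by unfold ori; ring

theorem ori_four (a b c d : ℝ × ℝ) : ori b c d - ori a c d + ori a b d - ori a b c = 0 := by
  unfold ori; ring

/-- If the signed area vanishes then the points are collinear. -/
theorem collinear_of_ori {a b c : ℝ × ℝ} (hab : a ≠ b) (h : ori a b c = 0) :
    Collinear ℝ ({a, b, c} : Set (ℝ × ℝ)) := by
  rw [collinear_iff_of_mem (p₀ := a) (by simp)]
  refine ⟨b - a, ?_⟩
  intro p hp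
  simp only [Set.mem_insert_iff, Set.mem_singleton_iff] at hp
  rcases hp with rfl | rfl | rfl
  · exact ⟨0, by simp⟩
  · exact ⟨1, by simp⟩
  · unfold ori at h
    by_cases h1 : b.1 = a.1
    · have h2 : b.2 - a.2 ≠ 0 := by
        intro h3
        exact hab (Prod.ext h1.symm (by linarith))
      have h4 : p.1 - a.1 = 0 := by
        have : (b.2 - a.2) * (p.1 - a.1) = 0 := by
          rw [h1] at h
          linarith
        exact (mul_eq_zero.1 this).resolve_left h2
      refine ⟨(p.2 - a.2) / (b.2 - a.2), ?_⟩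
      apply Prod.ext
      · simp [h1]; linarith
      · simp; field_simp; ring
    · have h2 : b.1 - a.1 ≠ 0 := sub_ne_zero.2 h1
      refine ⟨(p.1 - a.1) / (b.1 - a.1), ?_⟩
      apply Prod.ext
      · simp; field_simp; ring
      · simp; field_simp; linarith

/-- Segments which start at the ends of a third one and lie on different sides are disjoint. -/
theorem disjoint_seg {u v x y : ℝ × ℝ} (hx : ori u v x < 0) (hy : ori v u y < 0) :
    Disjoint (segment ℝ u x) (segment ℝ v y) := by
  rw [Set.disjoint_left]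
  rintro p ⟨a, b, ha, hb, hab, rfl⟩ ⟨c, d, hc, hd, hcd, h⟩
  have h1 : ori u v (a • u + b • x) = b * ori u v x := by
    have : a = 1 - b := by linarith
    subst this
    unfold ori
    simp
    ring
  have h2 : ori u v (c • v + d • y) = d * ori u v y := by
    have : c = 1 - d := by linarith
    subst this
    unfold ori
    simp
    ring
  rw [ori_swap] at hy
  rw [h] at h2
  rw [h1] at h2
  have hb0 : b = 0 := by nlinarith
  have hd0 : d = 0 := by nlinarith
  subst hb0
  subst hd0
  have ha1 : a = 1 := by linarith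
  have hc1 : c = 1 := by linarith
  subst ha1
  subst hc1
  simp at h
  subst h
  unfold ori at hx
  simp at hx

/-- In a tournament the sum of the outdegrees over a set `A` is at least `binom |A| 2`. -/
theorem tournament {V : Type*} [DecidableEq V] (N A : Finset V) (hA : A ⊆ N) (r : V → V → Prop)
    [∀ v w, Decidable (r v w)] (hr : ∀ v ∈ N, ∀ w ∈ N, v ≠ w → (r v w ∨ r w v)) :
    (A.card : ℤ) * (A.card - 1) ≤ 2 * ∑ v ∈ A, ((N.filter (fun w => r v w)).card : ℤ) := by
  have h1 : ∑ v ∈ A, ((A.filter (fun w => v ≠ w ∧ r v w)).card) ≤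
      ∑ v ∈ A, ((N.filter (fun w => r v w)).card) := by
    refine Finset.sum_le_sum fun v _ => Finset.card_le_card fun w hw => ?_
    rw [Finset.mem_filter] at hw ⊢
    exact ⟨hA hw.1, hw.2.2⟩
  have h2 : ∑ v ∈ A, ((A.filter (fun w => v ≠ w ∧ r v w)).card) =
      ∑ v ∈ A, ((A.filter (fun w => v ≠ w ∧ r w v)).card) := by
    simp only [Finset.card_filter]
    rw [Finset.sum_comm]
    refine Finset.sum_congr rfl fun v _ => Finset.sum_congr rfl fun w _ => ?_
    simp only [ne_comm]
  have h3 : A.card * (A.card - 1) ≤ ∑ v ∈ A, ((A.filter (fun w => v ≠ w ∧ r v w)).card) +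
      ∑ v ∈ A, ((A.filter (fun w => v ≠ w ∧ r w v)).card) := by
    rw [← Finset.sum_add_distrib]
    have : A.card * (A.card - 1) = ∑ _v ∈ A, (A.card - 1) := by
      rw [Finset.sum_const, smul_eq_mul]
    rw [this]
    refine Finset.sum_le_sum fun v hv => ?_
    have h4 : A.card - 1 = (A.erase v).card := (Finset.card_erase_of_mem hv).symm
    rw [h4]
    refine le_trans (Finset.card_le_card ?_) (Finset.card_union_le _ _)
    intro w hw
    rw [Finset.mem_erase] at hw
    rw [Finset.mem_union, Finset.mem_filter, Finset.mem_filter]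
    rcases hr v (hA hv) w (hA hw.2) (Ne.symm hw.1) with h | h
    · exact Or.inl ⟨hw.2, Ne.symm hw.1, h⟩
    · exact Or.inr ⟨hw.2, Ne.symm hw.1, h⟩
  rw [← h2] at h3
  have h5 : A.card * (A.card - 1) ≤ 2 * ∑ v ∈ A, ((N.filter (fun w => r v w)).card) := by omega
  rcases Nat.eq_zero_or_pos A.card with h0 | h0
  · rw [h0]
    simp
    exact Finset.sum_nonneg fun _ _ => by positivity
  · have h6 : ((A.card * (A.card - 1) : ℕ) : ℤ) = (A.card : ℤ) * (A.card - 1) := by
      rw [Nat.cast_mul, Nat.cast_sub h0, Nat.cast_one]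
    rw [← h6]
    exact_mod_cast h5

theorem vertex {V : Type*} [DecidableEq V] (N : Finset V) (r : V → V → Prop)
    [∀ v w, Decidable (r v w)] (hr : ∀ v ∈ N, ∀ w ∈ N, v ≠ w → (r v w ∨ r w v)) (k : ℕ) :
    2 * (k : ℤ) * N.card - k * (k + 1) ≤
      2 * ∑ v ∈ N, ((min (N.filter (fun w => r v w)).card k : ℕ) : ℤ) := by
  set R : V → ℕ := fun v => (N.filter (fun w => r v w)).card with hR
  set A := N.filter (fun v => R v ≤ k) with hA
  have h1 := tournament N A (Finset.filter_subset _ _) r hr
  have h2 : ∑ v ∈ N, ((min (R v) k : ℕ) : ℤ) = ∑ v ∈ A, (R v : ℤ) + k * (N.card - A.card) := by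
    rw [← Finset.sum_filter_add_sum_filter_not N (fun v => R v ≤ k)]
    congr 1
    · refine Finset.sum_congr rfl fun v hv => ?_
      rw [min_eq_left (Finset.mem_filter.1 hv).2]
    · have h3 : ∑ v ∈ N.filter (fun v => ¬ R v ≤ k), ((min (R v) k : ℕ) : ℤ) =
          ∑ _v ∈ N.filter (fun v => ¬ R v ≤ k), (k : ℤ) := by
        refine Finset.sum_congr rfl fun v hv => ?_
        rw [min_eq_right (not_le.1 (Finset.mem_filter.1 hv).2).le]
      rw [h3, Finset.sum_const, nsmul_eq_mul]
      have h4 := Finset.card_filter_add_card_filter_not (s := N) (fun v => R v ≤ k)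
      have h5 : ((N.filter (fun v => ¬ R v ≤ k)).card : ℤ) = N.card - A.card := by
        rw [← h4]; push_cast; ring
      rw [h5]; ring
  change _ ≤ 2 * ∑ v ∈ N, ((min (R v) k : ℕ) : ℤ)
  rw [h2]
  change _ ≤ 2 * ∑ v ∈ A, (R v : ℤ) at h1
  have h6 : 0 ≤ ((A.card : ℤ) - k) * (A.card - k - 1) := by
    rcases le_or_gt (A.card : ℤ) k with h | h
    · exact mul_nonneg_of_nonpos_of_nonpos (by linarith) (by linarith)
    · exact mul_nonneg (by linarith) (by have := Int.add_one_le_iff.2 h; linarith)
  nlinarith

/-- `M D a = ∑ min a k` over `1 ≤ k ≤ D`. -/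
def M (D a : ℕ) : ℕ := ∑ k ∈ Finset.range D, min a (k + 1)

theorem M_succ (D a : ℕ) : M (D + 1) a = M D a + min a (D + 1) := by
  unfold M
  rw [Finset.sum_range_succ]

theorem two_M (D a : ℕ) (h : a ≤ D) : 2 * (M D a : ℤ) = (2 * D + 1) * a - a * a := by
  induction D with
  | zero =>
    have : a = 0 := by omega
    subst this
    simp [M]
  | succ D ih =>
    rw [M_succ]
    rcases Nat.lt_or_ge D a with h1 | h1
    · have : a = D + 1 := by omega
      subst this
      have h2 : M D (D + 1) = M D D := by
        unfold M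
        refine Finset.sum_congr rfl fun k hk => ?_
        rw [Finset.mem_range] at hk
        omega
      -- `M D D = D (D + 1) / 2`
      have h3 : ∀ D : ℕ, 2 * (M D D : ℤ) = D * (D + 1) := by
        intro D
        have h4 : M D D = ∑ k ∈ Finset.range D, (k + 1) := by
          unfold M
          refine Finset.sum_congr rfl fun k hk => ?_
          rw [Finset.mem_range] at hk
          omega
        rw [h4]
        clear h4
        induction D with
        | zero => simp
        | succ D ih =>
          rw [Finset.sum_range_succ]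
          push_cast at ih ⊢
          linarith
      rw [h2]
      have := h3 D
      push_cast
      simp only [min_self]
      push_cast
      linarith
    · have h2 := ih h1
      rw [min_eq_left (by omega)]
      push_cast
      push_cast at h2
      linarith

theorem M_min (D a : ℕ) : M D a = M D (min a D) := by
  unfold M
  refine Finset.sum_congr rfl fun k hk => ?_
  rw [Finset.mem_range] at hk
  omega

/-- The inequality for the product. -/
theorem prod_ge (D a b : ℕ) : 2 * (M D a : ℤ) + 2 * M D b - D * (D + 1) ≤ 2 * (a * b) := by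
  have h1 : (min a D : ℤ) * (min b D : ℤ) ≤ a * b :=
    mul_le_mul (min_le_left _ _) (min_le_left _ _) (by positivity) (by positivity)
  have h2 : 2 * (M D a : ℤ) = (2 * D + 1) * (min a D : ℕ) - (min a D : ℕ) * (min a D : ℕ) := by
    rw [M_min]
    exact two_M D _ (min_le_right _ _)
  have h3 : 2 * (M D b : ℤ) = (2 * D + 1) * (min b D : ℕ) - (min b D : ℕ) * (min b D : ℕ) := by
    rw [M_min]
    exact two_M D _ (min_le_right _ _)
  push_cast at h2 h3
  set x : ℤ := min (a : ℤ) D with hx
  set y : ℤ := min (b : ℤ) D with hy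
  have h6 : 0 ≤ (x + y - D) * (x + y - D - 1) := by
    rcases le_or_gt (x + y) D with h | h
    · exact mul_nonneg_of_nonpos_of_nonpos (by linarith) (by linarith)
    · exact mul_nonneg (by linarith) (by have := Int.add_one_le_iff.2 h; linarith)
  nlinarith

end Pool.Agent.K3h94.DJ
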