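import Pool.Agent.K3h94.DJ.Core

/-!
# Disjoint pairs of edges in geometric graphs: the main inequality
-/

set_option autoImplicit false

namespace Pool.Agent.K3h94.DJ

open Finset Classical

variable {V : Type*} [Fintype V] (G : SimpleGraph V) (p : V → ℝ × ℝ)

/-- The neighbours of `u`. -/
noncomputable def nb (u : V) : Finset V := univ.filter (fun v => G.Adj u v)

/-- The neighbours of `u` on the right hand side of the ray from `u` to `v`. -/
noncomputable def Rs (u v : V) : Finset V := (nb G u).filter (fun w => ori (p u) (p v) (p w) < 0)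

theorem mem_nb {u v : V} : v ∈ nb G u ↔ G.Adj u v := by simp [nb]

theorem mem_Rs {u v w : V} : w ∈ Rs G p u v ↔ G.Adj u w ∧ ori (p u) (p v) (p w) < 0 := by
  simp [Rs, nb]

theorem sum_swap (f : V → V → ℤ) :
    ∑ u, ∑ v ∈ nb G u, f v u = ∑ u, ∑ v ∈ nb G u, f u v := by
  simp only [nb, Finset.sum_filter]
  rw [Finset.sum_comm]
  refine Finset.sum_congr rfl fun u _ => Finset.sum_congr rfl fun v _ => ?_
  simp only [G.adj_comm]

/-- The set of the configurations. -/
noncomputable def T : Finset (Σ _ : V, Σ _ : V, V × V) :=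
  (univ : Finset V).sigma fun u => (nb G u).sigma fun v => Rs G p u v ×ˢ Rs G p v u

theorem card_T : ((T G p).card : ℤ) =
    ∑ u, ∑ v ∈ nb G u, ((Rs G p u v).card : ℤ) * (Rs G p v u).card := by
  unfold T
  rw [Finset.card_sigma]
  push_cast
  refine Finset.sum_congr rfl fun u _ => ?_
  rw [Finset.card_sigma]
  push_cast
  refine Finset.sum_congr rfl fun v _ => ?_
  rw [Finset.card_product]
  push_cast
  ring

/-- The pair of edges of a configuration. -/
def F (t : Σ _ : V, Σ _ : V, V × V) : Sym2 (Sym2 V) := s(s(t.1, t.2.2.1), s(t.2.1, t.2.2.2))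

omit [Fintype V] in
theorem uniq {u v x y u' v' x' y' : V} (h1 : ori (p u) (p v) (p x) < 0)
    (h2 : ori (p v) (p u) (p y) < 0) (h3 : ori (p u') (p v') (p x') < 0)
    (h4 : ori (p v') (p u') (p y') < 0) (h5 : s(u, x) = s(u', x')) (h6 : s(v, y) = s(v', y')) :
    u = u' ∧ v = v' ∧ x = x' ∧ y = y' := by
  have o1 := ori_swap (p u) (p v) (p y)
  rcases Sym2.eq_iff.1 h5 with ⟨rfl, rfl⟩ | ⟨rfl, rfl⟩ <;>
    rcases Sym2.eq_iff.1 h6 with ⟨rfl, rfl⟩ | ⟨rfl, rfl⟩
  · exact ⟨rfl, rfl, rfl, rfl⟩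
  · exfalso
    have := ori_rot (p y) (p u) (p v)
    linarith
  · exfalso
    have := ori_rot (p u) (p x) (p v)
    have := ori_rot (p x) (p v) (p u)
    have := ori_swap' (p u) (p v) (p x)
    linarith
  · exfalso
    have e1 := ori_four (p u) (p v) (p x) (p y)
    have e2 : ori (p x) (p y) (p u) = ori (p u) (p x) (p y) := by
      rw [ori_rot (p u) (p x) (p y)]
    have e3 : ori (p y) (p x) (p v) = - ori (p v) (p x) (p y) := by
      unfold ori; ring
    linarith

theorem card_T_le (S : Finset (Sym2 (Sym2 V)))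
    (hS : ∀ u v x y, G.Adj u x → G.Adj v y →
      Disjoint (segment ℝ (p u) (p x)) (segment ℝ (p v) (p y)) → s(s(u, x), s(v, y)) ∈ S) :
    (T G p).card ≤ 2 * S.card := by
  have h1 : (T G p).card ≤ 2 * ((T G p).image F).card := by
    refine Finset.card_le_mul_card_image _ 2 ?_
    intro a ha
    obtain ⟨⟨u, v, x, y⟩, ht, rfl⟩ := Finset.mem_image.1 ha
    have hsub : (T G p).filter (fun t => F t = F ⟨u, v, x, y⟩) ⊆
        {⟨u, v, x, y⟩, ⟨v, u, y, x⟩} := by
      rintro ⟨u', v', x', y'⟩ ht'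
      rw [Finset.mem_filter] at ht'
      obtain ⟨ht', hF⟩ := ht'
      simp only [T, Finset.mem_sigma, Finset.mem_univ, true_and, Finset.mem_product, mem_Rs,
        mem_nb] at ht ht'
      obtain ⟨_, ⟨_, a1⟩, ⟨_, a2⟩⟩ := ht
      obtain ⟨_, ⟨_, b1⟩, ⟨_, b2⟩⟩ := ht'
      simp only [F] at hF
      rcases Sym2.eq_iff.1 hF with ⟨e1, e2⟩ | ⟨e1, e2⟩
      · obtain ⟨rfl, rfl, rfl, rfl⟩ := uniq p b1 b2 a1 a2 e1 e2
        simp
      · obtain ⟨rfl, rfl, rfl, rfl⟩ := uniq p b1 b2 a2 a1 e1 e2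
        simp
    exact (Finset.card_le_card hsub).trans Finset.card_le_two
  refine h1.trans (Nat.mul_le_mul_left 2 (Finset.card_le_card ?_))
  intro a ha
  obtain ⟨⟨u, v, x, y⟩, ht, rfl⟩ := Finset.mem_image.1 ha
  simp only [T, Finset.mem_sigma, Finset.mem_univ, true_and, Finset.mem_product, mem_Rs,
    mem_nb] at ht
  obtain ⟨_, ⟨a0, a1⟩, ⟨b0, b1⟩⟩ := ht
  exact hS u v x y a0 b0 (disjoint_seg a1 b1)

theorem sum_sq (D : ℕ) (E n : ℤ) :
    3 * ∑ k ∈ Finset.range D, (4 * E * ((k : ℤ) + 1) - n * ((k + 1) * (k + 2))) =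
      6 * E * (D * (D + 1)) - n * (D * (D + 1) * (D + 2)) := by
  induction D with
  | zero => simp
  | succ D ih =>
    rw [Finset.sum_range_succ, mul_add, ih]
    push_cast
    ring

theorem main (gen : ∀ u v w : V, u ≠ v → u ≠ w → v ≠ w → ori (p u) (p v) (p w) ≠ 0)
    (S : Finset (Sym2 (Sym2 V)))
    (hS : ∀ u v x y, G.Adj u x → G.Adj v y →
      Disjoint (segment ℝ (p u) (p x)) (segment ℝ (p v) (p y)) → s(s(u, x), s(v, y)) ∈ S)
    (E : ℕ) (hE : ∑ u, (nb G u).card = 2 * E) (D : ℕ) :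
    ((D : ℤ) * (D + 1)) * (3 * E - (D + 2) * Fintype.card V) ≤ 6 * S.card := by
  have hT : ((T G p).card : ℤ) ≤ 2 * S.card := by exact_mod_cast card_T_le G p S hS
  rw [card_T] at hT
  have hE' : ∑ u, ((nb G u).card : ℤ) = 2 * E := by exact_mod_cast hE
  -- the product inequality
  have h1 : ∑ u, ∑ v ∈ nb G u, (2 * (M D (Rs G p u v).card : ℤ) + 2 * M D (Rs G p v u).card -
      D * (D + 1)) ≤ ∑ u, ∑ v ∈ nb G u, 2 * (((Rs G p u v).card : ℤ) * (Rs G p v u).card) :=
    Finset.sum_le_sum fun u _ => Finset.sum_le_sum fun v _ => prod_ge D _ _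
  have h2 : ∑ u, ∑ v ∈ nb G u, 2 * (((Rs G p u v).card : ℤ) * (Rs G p v u).card) =
      2 * ∑ u, ∑ v ∈ nb G u, ((Rs G p u v).card : ℤ) * (Rs G p v u).card := by
    simp only [Finset.mul_sum]
  have h3' : ∀ c : ℤ, ∑ u, ∑ v ∈ nb G u, (2 * (M D (Rs G p u v).card : ℤ) +
      2 * M D (Rs G p v u).card - c) = 4 * ∑ u, ∑ v ∈ nb G u, (M D (Rs G p u v).card : ℤ) -
        c * (2 * E) := by
    intro c
    have h4 := sum_swap G (fun u v => (M D (Rs G p u v).card : ℤ))
    have h5 : ∑ u : V, ∑ _v ∈ nb G u, c = c * (2 * E) := by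
      rw [← hE', Finset.mul_sum]
      refine Finset.sum_congr rfl fun u _ => ?_
      rw [Finset.sum_const, nsmul_eq_mul]
      ring
    simp only [Finset.sum_sub_distrib, Finset.sum_add_distrib, ← Finset.mul_sum] at h4 ⊢
    rw [h5, h4]
    ring
  have h3 := h3' (D * (D + 1))
  -- the lower bound at the vertices
  have h6 : ∀ k : ℕ, 4 * (E : ℤ) * ((k : ℤ) + 1) - Fintype.card V * ((k + 1) * (k + 2)) ≤
      2 * ∑ u, ∑ v ∈ nb G u, ((min (Rs G p u v).card (k + 1) : ℕ) : ℤ) := by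
    intro k
    rw [Finset.mul_sum]
    have h7 : ∑ u : V, (2 * ((k + 1 : ℕ) : ℤ) * (nb G u).card - ((k + 1 : ℕ) : ℤ) *
        (((k + 1 : ℕ) : ℤ) + 1)) = 4 * (E : ℤ) * ((k : ℤ) + 1) -
          Fintype.card V * ((k + 1) * (k + 2)) := by
      rw [Finset.sum_sub_distrib, ← Finset.mul_sum, hE', Finset.sum_const, nsmul_eq_mul,
        Finset.card_univ]
      push_cast
      ring
    rw [← h7]
    refine Finset.sum_le_sum fun u _ => ?_
    refine vertex (nb G u) (fun v w => ori (p u) (p v) (p w) < 0) ?_ (k + 1)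
    intro v hv w hw hvw
    rw [mem_nb] at hv hw
    have := gen u v w hv.ne hw.ne hvw
    have h8 := ori_swap' (p u) (p v) (p w)
    rcases lt_or_gt_of_ne this with h | h
    · exact Or.inl h
    · right; linarith
  have h9 : ∑ k ∈ Finset.range D, (4 * (E : ℤ) * ((k : ℤ) + 1) -
      Fintype.card V * ((k + 1) * (k + 2))) ≤
      2 * ∑ u, ∑ v ∈ nb G u, (M D (Rs G p u v).card : ℤ) := by
    have h10 : ∑ u, ∑ v ∈ nb G u, (M D (Rs G p u v).card : ℤ) = ∑ k ∈ Finset.range D,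
        ∑ u, ∑ v ∈ nb G u, ((min (Rs G p u v).card (k + 1) : ℕ) : ℤ) := by
      rw [Finset.sum_comm]
      refine Finset.sum_congr rfl fun u _ => ?_
      rw [Finset.sum_comm]
      refine Finset.sum_congr rfl fun v _ => ?_
      unfold M
      push_cast
      rfl
    rw [h10, Finset.mul_sum]
    exact Finset.sum_le_sum fun k _ => h6 k
  have h11 := sum_sq D E (Fintype.card V)
  rw [h3, h2] at h1
  nlinarith

end Pool.Agent.K3h94.DJ
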